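import Pool.Agent.W22.AK.LocalObs

/-!
# The local lower bound `d_0(k) ≥ p ^ t`

If `p` is a prime and `p ^ t` a power of it modulo which every `k`-th power is `0` or `1`, that is
`(p - 1) p ^ (t - 1) ∣ k`, or `p = 2`, `t ≥ 3` and `2 ^ (t - 2) ∣ k`, then
`N_{k,d}(p ^ j) = 2 d` for every `j` and every dimension `d < p ^ t`, and the asymptotic
`N_{k,d}(r) ≍ r ^ (d - k)` fails in every dimension `d < p ^ t`.  For instance it fails for
`k = 4` in every dimension `d ≤ 15`, and for `k = 2 ^ s`, `s ≥ 2`, in every dimension `d < 4 k`.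
-/

set_option autoImplicit false

namespace Pool.Agent.Results.MP_927be3_nt.LocalLower

open Pool.Agent.W22.AK

theorem result (k p t d : ℕ) (hk : 3 ≤ k) (hp : p.Prime) (ht : 1 ≤ t)
    (h : (p - 1) * p ^ (t - 1) ∣ k ∨ (p = 2 ∧ 3 ≤ t ∧ 2 ^ (t - 2) ∣ k))
    (hd : 1 ≤ d) (hdp : d < p ^ t) :
    (∀ j : ℕ, latticeCount k d ((p : ℝ) ^ j) = 2 * d) ∧ ¬ AsymptoticHolds k d := by
  have h1 : ∀ j : ℕ, latticeCount k d ((p : ℝ) ^ j) = 2 * d :=
    count_pow hp (by omega) (t_le_k hp hk h ht) (fun x hx => pow_modEq_one hp h ht x hx) hdp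
  exact ⟨h1, not_asymptotic_of_const hp (by omega) hd h1⟩

end Pool.Agent.Results.MP_927be3_nt.LocalLower
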