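import Pool.Agent.W22.AK.Final

/-!
# `d_0(k) ≥ k + 2`: the asymptotic `N_{k,d}(r) ≍ r ^ (d - k)` fails for `d ≤ k + 1`

For every degree `k ≥ 2` and every dimension `1 ≤ d ≤ k + 1` the quotient
`N_{k,d}(r) / r ^ (d - k)` is unbounded over `r` in `R_{k,d}`; in particular the asymptotic
`N_{k,d}(r) ≍ r ^ (d - k)` fails in dimension `d`.
-/

set_option autoImplicit false

namespace Pool.Agent.Results.MP_927be3_nt.LowerKPlusTwo

open Pool.Agent.W22.AK

/-- For all `k ≥ 2` and `1 ≤ d ≤ k + 1`: the upper bound `N_{k,d}(r) ≤ C r ^ (d - k)` fails for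
every constant `C`, at arbitrarily large radii `r` in `R_{k,d}`; hence the asymptotic fails in
dimension `d`. -/
theorem result (k d : ℕ) (hk : 2 ≤ k) (hd : 1 ≤ d) (hdk : d ≤ k + 1) :
    (∀ C r₀ : ℝ, ∃ r : ℝ, IsRadius k d r ∧ r₀ ≤ r ∧
      C * r ^ ((d : ℤ) - (k : ℤ)) < (latticeCount k d r : ℝ)) ∧
    ¬ AsymptoticHolds k d :=
  ⟨fun C r₀ => upper_fails hk hd hdk C r₀, not_asymptotic hk hd hdk⟩

end Pool.Agent.Results.MP_927be3_nt.LowerKPlusTwo
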